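import Pool.Agent.H8.AV3.Stmts4

/-!
# MPL: the marks of one choice of local pairs
-/

set_option autoImplicit false

namespace Pool.Agent.H2.AV3B

open Polynomial Matrix Pool.AVR Pool.AV3

namespace MPL

variable {K : Type} [Field K]

theorem mulI {I : Set K} {π : K} (h : Dv I π) {x y : K} (hx : x ∈ I) (hy : y ∈ I) :
    x * y ∈ I := by
  obtain ⟨V, hV⟩ := h.val
  rw [← hV] at hx hy ⊢
  exact V.mul_mem _ _ hx hy

theorem pow_cond {F : Type} [Field F] {P l : F[X]} (hP : Irreducible P)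
    (h : algebraMap F[X] (RatFunc F) l / algebraMap F[X] (RatFunc F) P ∈ AVS.IP P) : P ∣ l := by
  have hP0 : algebraMap F[X] (RatFunc F) P ≠ 0 := by
    intro h0
    exact hP.ne_zero ((IsFractionRing.injective F[X] (RatFunc F)) (by rw [h0, map_zero]))
  set x : RatFunc F := algebraMap F[X] (RatFunc F) l / algebraMap F[X] (RatFunc F) P with hx
  have hd0 : algebraMap F[X] (RatFunc F) x.denom ≠ 0 := by
    intro h0
    exact x.denom_ne_zero ((IsFractionRing.injective F[X] (RatFunc F)) (by rw [h0, map_zero]))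
  have h1 : algebraMap F[X] (RatFunc F) x.num / algebraMap F[X] (RatFunc F) x.denom =
      algebraMap F[X] (RatFunc F) l / algebraMap F[X] (RatFunc F) P := by
    rw [RatFunc.num_div_denom]
  rw [div_eq_div_iff hd0 hP0] at h1
  have h2 : x.num * P = l * x.denom := by
    apply IsFractionRing.injective F[X] (RatFunc F)
    rw [map_mul, map_mul]
    exact h1
  have h3 : P ∣ l * x.denom := by
    rw [← h2]
    exact Dvd.intro_left _ rfl
  rcases hP.prime.dvd_or_dvd h3 with h4 | h4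
  · exact h4
  · exact absurd h4 h

theorem UI_of {I : Set K} {π x : K} (h : Dv I π) (hx : x ∈ I) (hx0 : x ≠ 0) (hp : x / π ∉ I) :
    AVS.UI I x := by
  refine ⟨hx0, hx, ?_⟩
  by_contra h1
  exact hp ((h.unif x hx hx0).1 h1)

end MPL

open MPL

theorem mpl_thm (hGLB : GLB3Stmt) (hACT : AV3.ACTStmt) (hGAF : GAFStmt) (hMKE : MKEStmt)
    (hMKG : MKGStmt) (hRDP : RDPStmt) (hRDI : RDIStmt) (hVDI : VDIStmt) (hDVP : DVPStmt)
    (hGIR : GIRStmt) : MPLStmt := by
  intro F _ _ h2 n c₀ S gP vP gi vi hS hKP hKi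
  have hin : ∀ (p : F[X]) (Q : F[X]), Irreducible Q → algebraMap F[X] (RatFunc F) p ∈ AVS.IP Q := by
    intro p Q hQ
    exact (hVDI F n (dv 0 0) (fun _ => p)).2.2 Q hQ 0
  obtain ⟨α, β, c', g, κ, k, hc', hE, hgP, -, hκ, hgi⟩ := hGLB F n (mp c₀) S gP gi hS
    (fun P hP => ⟨(hKP P hP).1, (hKP P hP).2.1⟩)
    (fun P hPm hPi _ i => (hVDI F n (dv 0 0) c₀).2.2 P hPi i) hKi.1 hKi.2.1
  refine ⟨α, β, g, hE.1.ne_zero, ?_⟩
  intro γ hγ
  obtain ⟨c'', hc'', hγE⟩ := hACT F n (dv α β) c' γ hc' hγ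
  have hE2 : Eqv (g * γ.map (algebraMap F[X] (RatFunc F))) (mp c₀) (mp c'') :=
    hE.trans (hγE.map (algebraMap F[X] (RatFunc F)))
  refine ⟨c'', hc'', hE2, ?_, ?_⟩
  · intro P hP l hl
    have hPi := (hS P hP).2
    have hdv := hDVP.1 F P hPi
    have hG := hGIR _ _ _ hdv
    obtain ⟨κP, hκP, hgκ⟩ := hgP P hP
    have hκγ := hG.2.1 _ _ hκP ((hGAF F γ).1 P hPi hγ.1)
    have hl0 : l ≠ 0 := by
      rintro rfl
      exact hl (dvd_zero _)
    have hlK : algebraMap F[X] (RatFunc F) l ≠ 0 := by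
      intro h0
      exact hl0 ((IsFractionRing.injective F[X] (RatFunc F)) (by rw [h0, map_zero]))
    have hUl : AVS.UI (AVS.IP P) (algebraMap F[X] (RatFunc F) l) :=
      UI_of hdv (hin l P hPi) hlK (fun h => hl (pow_cond hPi h))
    obtain ⟨z, hz⟩ := hMKE _ _ _ hdv (gP P) (κP * γ.map (algebraMap F[X] (RatFunc F)))
      (algebraMap F[X] (RatFunc F) l • vP P) 0
      (fun i => mulI hdv (hin l P hPi) ((hKP P hP).2.2.1 i)) hκγ
    have hmat : (algebraMap F[X] (RatFunc F) P) ^ (0 : ℤ) •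
        (gP P * (κP * γ.map (algebraMap F[X] (RatFunc F)))) =
        g * γ.map (algebraMap F[X] (RatFunc F)) := by
      rw [zpow_zero, one_smul, hgκ, Matrix.mul_assoc]
    rw [hmat] at hz
    refine ⟨z, hz, ?_⟩
    have h3 := hMKG _ _ _ hdv _ _ _ _ _ _ hUl (hKP P hP) hz
    have h4 : (fun i => tsub (mp c₀) (g * γ.map (algebraMap F[X] (RatFunc F))) i /
        (g * γ.map (algebraMap F[X] (RatFunc F))).det) = mp c'' := by
      funext i
      rw [hE2.2]
      simp only [Pi.smul_apply, smul_eq_mul]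
      rw [mul_div_cancel_left₀ _ hE2.1.ne_zero]
    have h5 := h3.2.2
    rw [h4] at h5
    exact (hRDP F P (hS P hP).1 hPi).2.2.2 c'' z h5
  · intro l hl
    have hdv := hDVP.2.1 F
    have hG := hGIR _ _ _ hdv
    have hCI : ∀ r : F, algebraMap F[X] (RatFunc F) (C r) ∈ AVS.Iinf F := by
      intro r
      show (algebraMap F[X] (RatFunc F) (C r)).intDegree ≤ 0
      rw [RatFunc.intDegree_polynomial, natDegree_C]
      simp
    have hCl : algebraMap F[X] (RatFunc F) (C l) ≠ 0 := by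
      intro h0
      exact hl (C_injective ((IsFractionRing.injective F[X] (RatFunc F))
        (by rw [h0, map_zero, map_zero])))
    have hinv : (algebraMap F[X] (RatFunc F) (C l))⁻¹ = algebraMap F[X] (RatFunc F) (C l⁻¹) := by
      rw [inv_eq_iff_eq_inv]
      apply eq_inv_of_mul_eq_one_left
      rw [← map_mul, ← C_mul, mul_inv_cancel₀ hl, C_1, map_one]
    have hUl : AVS.UI (AVS.Iinf F) (algebraMap F[X] (RatFunc F) (C l)) :=
      ⟨hCl, hCI l, by rw [hinv]; exact hCI _⟩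
    have hX0 : (RatFunc.X : RatFunc F) ≠ 0 := RatFunc.X_ne_zero
    have hκγ := hG.2.1 _ _ hκ ((hGAF F γ).2 (dv α β) hγ)
    obtain ⟨z, hz⟩ := hMKE _ _ _ hdv gi
      (κ * (Dg (dv α β) * γ.map (algebraMap F[X] (RatFunc F)) * (Dg (dv α β))⁻¹))
      (algebraMap F[X] (RatFunc F) (C l) • vi) (-k)
      (fun i => mulI hdv (hCI l) (hKi.2.2.1 i)) hκγ
    have hmat : ((RatFunc.X : RatFunc F)⁻¹) ^ (-k) •
        (gi * (κ * (Dg (dv α β) * γ.map (algebraMap F[X] (RatFunc F)) * (Dg (dv α β))⁻¹))) =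
        g * γ.map (algebraMap F[X] (RatFunc F)) * (Dg (dv α β))⁻¹ := by
      rw [_root_.inv_zpow, _root_.zpow_neg, inv_inv, hgi]
      simp only [Matrix.mul_assoc, Matrix.smul_mul]
    rw [hmat] at hz
    refine ⟨z, hz, ?_⟩
    have h3 := hMKG _ _ _ hdv _ _ _ _ _ _ hUl hKi hz
    have h4 : (fun i => tsub (((RatFunc.X : RatFunc F) ^ n)⁻¹ • mp c₀)
        (g * γ.map (algebraMap F[X] (RatFunc F)) * (Dg (dv α β))⁻¹) i /
        (g * γ.map (algebraMap F[X] (RatFunc F)) * (Dg (dv α β))⁻¹).det) = cI n (dv α β) c'' := by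
      funext i
      rw [← (hVDI F n (dv α β) c'').2.1 i, ← AV3.tsub_mul, tsub_smul_form, hE2.2, smul_comm,
        tsub_smul_form, Matrix.det_mul (g * γ.map (algebraMap F[X] (RatFunc F)))]
      simp only [Pi.smul_apply, smul_eq_mul]
      rw [mul_div_mul_left _ _ hE2.1.ne_zero]
    have h5 := h3.2.2
    rw [h4] at h5
    exact (hRDI F).2 n (dv α β) c'' hc'' z h5

end Pool.Agent.H2.AV3B
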