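import Pool.Agent.H8.AV3.Stmts4

/-!
# TLW: the tail, the forms of the types near the boundary
-/

set_option autoImplicit false

namespace Pool.Agent.H2.AV3B

open Polynomial Matrix Pool.AVR Pool.AV3

namespace TLW

theorem card_low (q : ℕ) (hq : 2 ≤ q) (G : ℕ → ℕ → ℕ)
    (h00 : (q ^ 3 - 1) * (q ^ 3 - q) * (q ^ 3 - q ^ 2) ≤ G 0 0)
    (h0m : ∀ m : ℕ, 1 ≤ m → (q ^ 2 - 1) * (q ^ 2 - q) * ((q - 1) * q ^ (2 * m + 2)) ≤ G 0 m)
    (hm0 : ∀ m : ℕ, 1 ≤ m → (q ^ 2 - 1) * (q ^ 2 - q) * ((q - 1) * q ^ (2 * m + 2)) ≤ G m 0)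
    (h11 : ∀ α β : ℕ, 1 ≤ α → 1 ≤ β → (q - 1) ^ 3 * q ^ (2 * α + 2 * β + 3) ≤ G α β)
    (α β : ℕ) : q ^ (2 * α + 2 * β) ≤ G α β := by
  have hq1 : 1 < q := by omega
  have e1 : 1 ≤ q ^ 2 - 1 := by
    have : 1 < q ^ 2 := Nat.one_lt_pow (by norm_num) hq1
    omega
  have e2 : 1 ≤ q ^ 2 - q := by
    have : q ^ 1 < q ^ 2 := Nat.pow_lt_pow_right hq1 (by norm_num)
    simp at this
    omega
  have e3 : 1 ≤ q - 1 := by omega
  have mono : ∀ m : ℕ, q ^ (2 * m) ≤ (q ^ 2 - 1) * (q ^ 2 - q) * ((q - 1) * q ^ (2 * m + 2)) := by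
    intro m
    calc q ^ (2 * m) ≤ q ^ (2 * m + 2) := Nat.pow_le_pow_right (by omega) (by omega)
      _ = 1 * 1 * (1 * q ^ (2 * m + 2)) := by ring
      _ ≤ _ := Nat.mul_le_mul (Nat.mul_le_mul e1 e2) (Nat.mul_le_mul e3 le_rfl)
  rcases Nat.eq_zero_or_pos α with ha | ha
  · rcases Nat.eq_zero_or_pos β with hb | hb
    · subst ha hb
      have f1 : 1 ≤ q ^ 3 - 1 := by
        have : 1 < q ^ 3 := Nat.one_lt_pow (by norm_num) hq1
        omega
      have f2 : 1 ≤ q ^ 3 - q := by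
        have : q ^ 1 < q ^ 3 := Nat.pow_lt_pow_right hq1 (by norm_num)
        simp at this
        omega
      have f3 : 1 ≤ q ^ 3 - q ^ 2 := by
        have : q ^ 2 < q ^ 3 := Nat.pow_lt_pow_right hq1 (by norm_num)
        omega
      calc q ^ (2 * 0 + 2 * 0) = 1 * 1 * 1 := by simp
        _ ≤ _ := Nat.mul_le_mul (Nat.mul_le_mul f1 f2) f3
        _ ≤ _ := h00
    · subst ha
      have := (mono β).trans (h0m β hb)
      simpa using this
  · rcases Nat.eq_zero_or_pos β with hb | hb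
    · subst hb
      have := (mono α).trans (hm0 α ha)
      simpa using this
    · refine le_trans ?_ (h11 α β ha hb)
      calc q ^ (2 * α + 2 * β) ≤ q ^ (2 * α + 2 * β + 3) :=
            Nat.pow_le_pow_right (by omega) (by omega)
        _ = 1 ^ 3 * q ^ (2 * α + 2 * β + 3) := by ring
        _ ≤ _ := Nat.mul_le_mul (Nat.pow_le_pow_left e3 3) le_rfl

theorem lim (q B ε : ℝ) (hq : 1 < q) (hε : 0 < ε) : ∃ n₀ : ℕ, ∀ n : ℕ, n₀ ≤ n →
    B * ((n : ℝ) + 1) ^ 2 ≤ ε * q ^ (n + 1) := by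
  have h := (tendsto_pow_const_div_const_pow_of_one_lt 2 hq).const_mul |B|
  rw [mul_zero] at h
  have h1 := (h.eventually (gt_mem_nhds hε))
  rw [Filter.eventually_atTop] at h1
  obtain ⟨n₀, hn⟩ := h1
  refine ⟨n₀, fun n hn0 => ?_⟩
  have h2 := hn (n + 1) (by omega)
  have hq0 : (0 : ℝ) < q ^ (n + 1) := by positivity
  push_cast at h2
  rw [← mul_div_assoc, div_lt_iff₀ hq0] at h2
  have h3 : B * ((n : ℝ) + 1) ^ 2 ≤ |B| * ((n : ℝ) + 1) ^ 2 :=
    mul_le_mul_of_nonneg_right (le_abs_self B) (by positivity)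
  linarith

theorem expo (n α β M : ℕ) (hα : α ≤ n) (hβ : β ≤ n) (h : ¬ M + 2 * α + β ≤ n + 1) :
    10 * n + 10 + (2 * α + β - (n + 1)) + (α + β - (n + 1)) + (n + 1) ≤
      (2 * α + 2 * β) + (10 * n + 10 + M) := by
  omega

end TLW

open TLW

theorem tlw_thm (hLVA : LVAStmt) (hCNV : CNVStmt) (hGRC : AV3.GRCStmt) : TLWStmt := by
  intro F _ _ h2 S hS N hN ε hε
  classical
  have hq : 2 ≤ Nat.card F := by
    have := Finite.one_lt_card (α := F)
    omega
  set q : ℝ := (Nat.card F : ℝ) with hqdef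
  have hq1 : (1 : ℝ) < q := by
    rw [hqdef]
    exact_mod_cast (by omega : 1 < Nat.card F)
  have hq0 : (0 : ℝ) < q := by linarith
  set M := N * (∑ P ∈ S, P.natDegree + 1) with hM
  set B : ℝ := (∏ P ∈ S, (2 * q ^ (2 * P.natDegree))) * (2 * q ^ (2 * (X : F[X]).natDegree))
    with hB
  have hB0 : 0 ≤ B := by positivity
  obtain ⟨n₀, hn₀⟩ := lim q (B * q ^ M) ε hq1 hε
  refine ⟨n₀, fun n hn => ?_⟩
  have hW : ∀ (α β : ℕ) (c : Fin 10 → F[X]), WB3 n α β S N c ≤ B := by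
    intro α β c
    have hX := ((hLVA F h2 X monic_X irreducible_X).2 N hN (cinf n (dv α β) c)).2.2
    have hP : ∀ P ∈ S, 0 ≤ wb P N c ∧ wb P N c ≤ 2 * q ^ (2 * P.natDegree) := fun P hP =>
      ((hLVA F h2 P (hS P hP).1 (hS P hP).2).2 N hN c).2.2
    refine mul_le_mul ?_ hX.2 hX.1 (by positivity)
    exact Finset.prod_le_prod (fun P hP' => (hP P hP').1) (fun P hP' => (hP P hP').2)
  have key : ∀ α ∈ Finset.range (n + 1), ∀ β ∈ Finset.range (n + 1),
      (if N * (∑ P ∈ S, P.natDegree + 1) + 2 * α + β ≤ n + 1 then 0 else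
        (∑ᶠ c ∈ (Vd n (dv α β) : Set (Fin 10 → F[X])), WB3 n α β S N c) /
          (G3 (dv α β) : Set (Matrix (Fin 3) (Fin 3) F[X])).ncard) ≤
      B * q ^ M * q ^ (10 * n + 10) / q ^ (n + 1) := by
    intro α hα β hβ
    rw [Finset.mem_range] at hα hβ
    split_ifs with hc
    · positivity
    · obtain ⟨hfin, hcard⟩ := hCNV F n α β (by omega) (by omega)
      have hG := hGRC F
      have hlow := card_low (Nat.card F) hq
        (fun α β => (G3 (dv α β) : Set (Matrix (Fin 3) (Fin 3) F[X])).ncard) hG.2.1 hG.2.2.1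
        hG.2.2.2.1 hG.2.2.2.2 α β
      have hlow' : q ^ (2 * α + 2 * β) ≤
          ((G3 (dv α β) : Set (Matrix (Fin 3) (Fin 3) F[X])).ncard : ℝ) := by
        rw [hqdef]
        exact_mod_cast hlow
      have hGpos : (0 : ℝ) < ((G3 (dv α β) : Set (Matrix (Fin 3) (Fin 3) F[X])).ncard : ℝ) :=
        lt_of_lt_of_le (by positivity) hlow'
      have hsum : (∑ᶠ c ∈ (Vd n (dv α β) : Set (Fin 10 → F[X])), WB3 n α β S N c) ≤
          q ^ (10 * n + 10 + (2 * α + β - (n + 1)) + (α + β - (n + 1))) * B := by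
        rw [finsum_mem_eq_finite_toFinset_sum _ hfin]
        have h3 := Finset.sum_le_card_nsmul hfin.toFinset (fun c => WB3 n α β S N c) B
          (fun c _ => hW α β c)
        rw [nsmul_eq_mul, ← Set.ncard_eq_toFinset_card _ hfin] at h3
        refine h3.trans (mul_le_mul_of_nonneg_right ?_ hB0)
        rw [hqdef]
        exact_mod_cast hcard
      rw [div_le_div_iff₀ hGpos (by positivity)]
      have he := expo n α β M (by omega) (by omega) hc
      calc (∑ᶠ c ∈ (Vd n (dv α β) : Set (Fin 10 → F[X])), WB3 n α β S N c) * q ^ (n + 1)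
          ≤ (q ^ (10 * n + 10 + (2 * α + β - (n + 1)) + (α + β - (n + 1))) * B) *
              q ^ (n + 1) := mul_le_mul_of_nonneg_right hsum (by positivity)
        _ = B * q ^ (10 * n + 10 + (2 * α + β - (n + 1)) + (α + β - (n + 1)) + (n + 1)) := by
              rw [pow_add q _ (n + 1)]
              ring
        _ ≤ B * q ^ ((2 * α + 2 * β) + (10 * n + 10 + M)) :=
              mul_le_mul_of_nonneg_left (pow_le_pow_right₀ hq1.le he) hB0
        _ = B * q ^ M * q ^ (10 * n + 10) * q ^ (2 * α + 2 * β) := by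
              rw [pow_add, pow_add q (10 * n + 10) M]
              ring
        _ ≤ B * q ^ M * q ^ (10 * n + 10) *
              ((G3 (dv α β) : Set (Matrix (Fin 3) (Fin 3) F[X])).ncard : ℝ) :=
              mul_le_mul_of_nonneg_left hlow' (by positivity)
  have h5 : ∑ α ∈ Finset.range (n + 1), ∑ β ∈ Finset.range (n + 1),
        (if N * (∑ P ∈ S, P.natDegree + 1) + 2 * α + β ≤ n + 1 then 0 else
        (∑ᶠ c ∈ (Vd n (dv α β) : Set (Fin 10 → F[X])), WB3 n α β S N c) /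
          (G3 (dv α β) : Set (Matrix (Fin 3) (Fin 3) F[X])).ncard) ≤
      ∑ α ∈ Finset.range (n + 1), ∑ β ∈ Finset.range (n + 1),
        B * q ^ M * q ^ (10 * n + 10) / q ^ (n + 1) :=
    Finset.sum_le_sum fun α hα => Finset.sum_le_sum fun β hβ => key α hα β hβ
  refine h5.trans ?_
  rw [Finset.sum_const, Finset.sum_const, Finset.card_range, nsmul_eq_mul, nsmul_eq_mul,
    mul_div_assoc', mul_div_assoc', div_le_iff₀ (by positivity)]
  have h6 := hn₀ n hn
  have h7 : (0 : ℝ) < q ^ (10 * n + 10) := by positivity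
  push_cast
  nlinarith [mul_le_mul_of_nonneg_right h6 h7.le]

end Pool.Agent.H2.AV3B
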